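import Mathlib
import Pool.Agent.Helper64.HK.Line

/-!
# Two factors, three forms: the forms as sums over coordinates
-/

set_option autoImplicit false

namespace Pool.Agent.Helper21.H3

open Pool.Agent.Helper64.HK Finset
open Pool.Agent.Helper28.HN (I aff)

/-- sum over pairs of coordinates -/
theorem sum_two {S : Type*} [AddCommMonoid S] (F : (Fin (1 + 1) → I 2) → S) :
    ∑ p, F p = ∑ y : I 2, ∑ x : I 2, F ![y, x] := by
  have h1 := (finTwoArrowEquiv (I 2)).symm.sum_comp F
  rw [← h1, Fintype.sum_prod_type]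
  rfl

/-- sum over the functions on a subtype with one element -/
theorem sum_one {S : Type*} [AddCommMonoid S] {ι : Type*} [Fintype ι] [DecidableEq ι] (i0 : ι)
    (h : ∀ i, i = i0) (F : (ι → I 2) → S) : ∑ q, F q = ∑ y : I 2, F fun _ => y := by
  have hu : Unique ι := ⟨⟨i0⟩, h⟩
  have h1 := (Equiv.funUnique ι (I 2)).symm.sum_comp F
  rw [← h1]
  rfl

/-- sum over the functions on an empty subtype -/
theorem sum_zero {S : Type*} [AddCommMonoid S] {ι : Type*} [Fintype ι] [DecidableEq ι]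
    (h : IsEmpty ι) (F : (ι → I 2) → S) : ∑ q, F q = F fun i => h.elim i := by
  rw [Fintype.sum_unique]
  congr 1

section

variable {a : Fin (1 + 1) → Fin (2 + 1)} {S : Type*} [CommRing S] (c : Ix a → S)

/-- a form of degree two in one factor -/
theorem Mf_one (i : Fin (2 + 1)) (j0 : Fin (1 + 1)) (h0 : a j0 = i)
    (h : ∀ j, a j = i → j = j0) (U V : Fin (1 + 1) → I 2 → S) :
    Mf c i U V = ∑ y : I 2, ∑ x : I 2, ∑ z : I 2,
      c ⟨i, ![y, x], fun _ => z⟩ * (U 0 y * U 1 x) * V j0 z := by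
  unfold Mf
  rw [sum_two]
  refine Finset.sum_congr rfl fun y _ => Finset.sum_congr rfl fun x _ => ?_
  rw [sum_one (⟨j0, h0⟩ : {j // a j = i}) (fun t => Subtype.ext (h t.1 t.2))]
  refine Finset.sum_congr rfl fun z _ => ?_
  rw [Fin.prod_univ_two]
  have hu : Unique {j // a j = i} := ⟨⟨⟨j0, h0⟩⟩, fun t => Subtype.ext (h t.1 t.2)⟩
  have h1 : ∏ j : {j // a j = i}, V j.1 z = V j0 z := by
    rw [Finset.prod_eq_single (⟨j0, h0⟩ : {j // a j = i})]
    · intro t _ ht
      exact absurd (Subtype.ext (h t.1 t.2)) ht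
    · intro ht
      exact absurd (Finset.mem_univ _) ht
  rw [h1]
  rfl

/-- a form of degree one in both factors -/
theorem Mf_none (i : Fin (2 + 1)) (h : ∀ j, a j ≠ i) (U V : Fin (1 + 1) → I 2 → S) :
    Mf c i U V = ∑ y : I 2, ∑ x : I 2,
      c ⟨i, ![y, x], fun j => (h j.1 j.2).elim⟩ * (U 0 y * U 1 x) := by
  have he : IsEmpty {j // a j = i} := ⟨fun t => h t.1 t.2⟩
  unfold Mf
  rw [sum_two]
  refine Finset.sum_congr rfl fun y _ => Finset.sum_congr rfl fun x _ => ?_
  rw [sum_zero he]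
  rw [Fin.prod_univ_two, Finset.univ_eq_empty, Finset.prod_empty, mul_one]
  congr 2

end

end Pool.Agent.Helper21.H3
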