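import Mathlib
import Pool.Agent.Helper21.H3.Gen
import Pool.Agent.Helper77.H3.Defs

/-!
# The example of type 2: closed forms over any commutative ring
-/

set_option autoImplicit false

namespace Pool.Agent.Helper21.H3

open Pool.Agent.Helper64.HK Pool.Agent.Helper77.H3 Finset
open Pool.Agent.Helper28.HN (I aff)

/-- coefficients of the form `0` -/
def t0 : Fin 4 → Fin 4 → Fin 4 → ℤ :=
  ![![![0, 0, 1, 0], ![1, 0, 0, 0], ![2, 0, 0, 0], ![0, 0, 0, 0]],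
    ![![0, 1, 0, 0], ![0, 0, 0, 0], ![0, 0, 0, 0], ![0, 0, 0, 0]],
    ![![0, 0, 1, 0], ![0, 0, 0, 0], ![0, 0, 0, 0], ![0, 0, 0, 0]],
    ![![0, 0, 0, -1], ![0, 0, 0, 0], ![0, 0, 0, 0], ![0, 0, 0, 0]]]

/-- coefficients of the form `1` -/
def t1 : Fin 4 → Fin 4 → Fin 4 → ℤ :=
  ![![![0, 1, 0, 0], ![0, -1, 0, 1], ![0, 0, 0, 0], ![0, 0, 0, -1]],
    ![![0, 1, 0, 2], ![0, -1, 0, 0], ![0, 0, 0, 0], ![0, 0, 0, 1]],
    ![![1, 0, 0, 0], ![0, 0, 0, 0], ![0, 0, 0, 0], ![0, 0, 0, 0]],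
    ![![0, 0, 0, 0], ![0, 0, 0, 0], ![0, 0, 0, 0], ![0, 0, 0, 0]]]

/-- coefficients of the form `2` -/
def t2 : Fin 4 → Fin 4 → ℤ :=
  ![![0, 1, 1, 0], ![0, 0, 0, 0], ![0, 0, 0, 0], ![1, 0, 0, 0]]

/-- the second slot of the forms `0` and `1` -/
def sl2 (i : Fin (2 + 1)) (q : {j // (![0, 1] : Fin (1 + 1) → Fin (2 + 1)) j = i} → I 2) : Fin 4 :=
  if h : (![0, 1] : Fin (1 + 1) → Fin (2 + 1)) 0 = i then q ⟨0, h⟩
  else if h : (![0, 1] : Fin (1 + 1) → Fin (2 + 1)) 1 = i then q ⟨1, h⟩ else 0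

/-- the coefficients of the example -/
def z0 (e : Ix (![0, 1] : Fin (1 + 1) → Fin (2 + 1))) : ℤ :=
  ![t0 (e.2.1 0) (e.2.1 1) (sl2 e.1 e.2.2), t1 (e.2.1 0) (e.2.1 1) (sl2 e.1 e.2.2),
    t2 (e.2.1 0) (e.2.1 1)] e.1

section

variable {S : Type*} [CommRing S]

/-- the coefficients in a ring -/
def zc (S : Type*) [CommRing S] (e : Ix (![0, 1] : Fin (1 + 1) → Fin (2 + 1))) : S := (z0 e : S)

theorem s4 (f : I 2 → S) : ∑ x, f x = f 0 + f 1 + f 2 + f 3 := Fin.sum_univ_four f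

theorem Mf0 (U V : Fin (1 + 1) → I 2 → S) : Mf (zc S) 0 U V =
    U 1 0 * (U 0 0 * V 0 2 + U 0 1 * V 0 1 + U 0 2 * V 0 2 - U 0 3 * V 0 3) +
      U 1 1 * U 0 0 * V 0 0 + 2 * U 1 2 * U 0 0 * V 0 0 := by
  rw [Mf_one (zc S) 0 0 rfl (by decide)]
  simp only [s4, zc, z0, sl2, t0]
  simp
  ring

theorem Mf1 (U V : Fin (1 + 1) → I 2 → S) : Mf (zc S) 1 U V =
    U 0 2 * U 1 0 * V 1 0 +
      U 0 0 * (U 1 0 * V 1 1 - U 1 1 * V 1 1 - U 1 3 * V 1 3 + U 1 1 * V 1 3) +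
      U 0 1 * (2 * U 1 0 * V 1 3 + U 1 3 * V 1 3 + U 1 0 * V 1 1 - U 1 1 * V 1 1) := by
  rw [Mf_one (zc S) 1 1 rfl (by decide)]
  simp only [s4, zc, z0, sl2, t1]
  simp
  ring

theorem Mf2 (U V : Fin (1 + 1) → I 2 → S) : Mf (zc S) 2 U V =
    U 0 3 * U 1 0 + U 0 0 * (U 1 1 + U 1 2) := by
  rw [Mf_none (zc S) 2 (by decide)]
  simp only [s4, zc, z0, t2]
  simp
  ring

end

end Pool.Agent.Helper21.H3
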