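import Mathlib
import Pool.Agent.Helper21.H3.Ex2a

/-!
# The example of type 2: closed forms of the quantities of the line
-/

set_option autoImplicit false

namespace Pool.Agent.Helper21.H3

open Pool.Agent.Helper64.HK Pool.Agent.Helper77.H3 Finset Polynomial
open Pool.Agent.Helper28.HN (I aff)

section

variable {S : Type*} [CommRing S]

theorem upd00 (X : Fin (1 + 1) → I 2 → S) (v : I 2 → S) : Function.update X 0 v 0 = v := by simp
theorem upd01 (X : Fin (1 + 1) → I 2 → S) (v : I 2 → S) : Function.update X 0 v 1 = X 1 := by simp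
theorem upd11 (X : Fin (1 + 1) → I 2 → S) (v : I 2 → S) : Function.update X 1 v 1 = v := by simp
theorem upd10 (X : Fin (1 + 1) → I 2 → S) (v : I 2 → S) : Function.update X 1 v 0 = X 0 := by simp

theorem ct0 (u : T3 → S) : (ct u : Fin (1 + 1) → I 2 → S) 0 = 0 := rfl
theorem ct10 (u : T3 → S) : (ct u : Fin (1 + 1) → I 2 → S) 1 0 = 1 := rfl
theorem ct11 (u : T3 → S) : (ct u : Fin (1 + 1) → I 2 → S) 1 1 = u (0, 0) := rfl
theorem ct12 (u : T3 → S) : (ct u : Fin (1 + 1) → I 2 → S) 1 2 = u (0, 1) := rfl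
theorem ct13 (u : T3 → S) : (ct u : Fin (1 + 1) → I 2 → S) 1 3 = u (0, 2) := rfl

theorem sa00 : ((![0, 1] : Fin (1 + 1) → Fin (2 + 1)) 0).succAbove (0 : Fin 2) = 1 := by decide
theorem sa01 : ((![0, 1] : Fin (1 + 1) → Fin (2 + 1)) 0).succAbove (1 : Fin 2) = 2 := by decide
theorem sa10 : ((![0, 1] : Fin (1 + 1) → Fin (2 + 1)) 1).succAbove (0 : Fin 2) = 0 := by decide
theorem sa11 : ((![0, 1] : Fin (1 + 1) → Fin (2 + 1)) 1).succAbove (1 : Fin 2) = 2 := by decide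

theorem rf00 (X : Fin (1 + 1) → I 2 → S) (v : I 2 → S) : rf (zc S) 0 X 0 v =
    v 2 * X 1 0 * X 1 0 +
      v 0 * (X 1 0 * X 1 1 - X 1 1 * X 1 1 - X 1 3 * X 1 3 + X 1 1 * X 1 3) +
      v 1 * (2 * X 1 0 * X 1 3 + X 1 3 * X 1 3 + X 1 0 * X 1 1 - X 1 1 * X 1 1) := by
  unfold rf Ef
  rw [sa00, Mf1]
  simp only [upd00, upd01]

theorem rf01 (X : Fin (1 + 1) → I 2 → S) (v : I 2 → S) : rf (zc S) 0 X 1 v =
    v 3 * X 1 0 + v 0 * (X 1 1 + X 1 2) := by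
  unfold rf Ef
  rw [sa01, Mf2]
  simp only [upd00, upd01]

theorem rf10 (X : Fin (1 + 1) → I 2 → S) (v : I 2 → S) : rf (zc S) 1 X 0 v =
    v 0 * (X 0 0 * X 0 2 + X 0 1 * X 0 1 + X 0 2 * X 0 2 - X 0 3 * X 0 3) +
      v 1 * X 0 0 * X 0 0 + 2 * v 2 * X 0 0 * X 0 0 := by
  unfold rf Ef
  rw [sa10, Mf0]
  simp only [upd11, upd10]

theorem rf11 (X : Fin (1 + 1) → I 2 → S) (v : I 2 → S) : rf (zc S) 1 X 1 v =
    X 0 3 * v 0 + X 0 0 * (v 1 + v 2) := by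
  unfold rf Ef
  rw [sa11, Mf2]
  simp only [upd11, upd10]

theorem Mx_eq (X : Fin (1 + 1) → I 2 → S) (h : X 1 0 = 1) : Mx (zc S) X = 1 := by
  ext r b
  unfold Mx
  fin_cases r <;> fin_cases b <;>
    simp [rf00, rf01, h, Pi.single_apply, Fin.ext_iff]

/-- the coordinate `2` of `Y0` -/
def al (u : T3 → S) : S := -u (0, 0) + u (0, 0) * u (0, 0) - u (0, 0) * u (0, 2) +
  u (0, 2) * u (0, 2)
/-- the coordinate `3` of `Y0` -/
def be (u : T3 → S) : S := -u (0, 0) - u (0, 1)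
/-- the coordinate `2` of `Y1` -/
def ga (u : T3 → S) : S := -u (0, 0) + u (0, 0) * u (0, 0) - 2 * u (0, 2) - u (0, 2) * u (0, 2)

theorem Y0_eq (u : T3 → S) : Y0 (zc S) (ct u) = ![1, 0, al u, be u] := by
  unfold Y0
  rw [Mx_eq _ (ct10 u), Matrix.adjugate_one, Matrix.one_mulVec, Matrix.det_one]
  funext i
  fin_cases i
  · rfl
  · rfl
  · show -(rf (zc S) 0 (ct u) 0 (Pi.single 0 1)) = al u
    rw [rf00, ct10, ct11, ct13]
    simp [al]
    ring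
  · show -(rf (zc S) 0 (ct u) 1 (Pi.single 0 1)) = be u
    rw [rf01, ct10, ct11, ct12]
    simp [be]
    ring

theorem Y1_eq (u : T3 → S) : Y1 (zc S) (ct u) = ![0, 1, ga u, 0] := by
  unfold Y1
  rw [Mx_eq _ (ct10 u), Matrix.adjugate_one, Matrix.one_mulVec, Matrix.det_one]
  funext i
  fin_cases i
  · rfl
  · rfl
  · show -(rf (zc S) 0 (ct u) 0 (Pi.single 1 1)) = ga u
    rw [rf00, ct10, ct11, ct13]
    simp [ga]
    ring
  · show -(rf (zc S) 0 (ct u) 1 (Pi.single 1 1)) = 0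
    rw [rf01, ct10, ct11, ct12]
    simp

theorem yh_eq (u : T3 → S) (z : S) : yh (zc S) (ct u) z = ![1, z, al u + z * ga u, be u] := by
  unfold yh
  rw [Y0_eq, Y1_eq]
  funext i
  fin_cases i <;> simp

theorem Pf0 (X : Fin (1 + 1) → I 2 → S) (v w : I 2 → S) : Pf (zc S) 0 X v w =
    X 1 0 * (v 0 * w 2 + w 0 * v 2 + 2 * (v 1 * w 1) + 2 * (v 2 * w 2) - 2 * (v 3 * w 3)) +
      2 * X 1 1 * (v 0 * w 0) + 4 * X 1 2 * (v 0 * w 0) := by
  unfold Pf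
  have h0 : (![0, 1] : Fin (1 + 1) → Fin (2 + 1)) 0 = 0 := rfl
  rw [h0, Mf0, Mf0]
  simp only [upd00, upd01]
  ring

theorem Pf1 (X : Fin (1 + 1) → I 2 → S) (v w : I 2 → S) : Pf (zc S) 1 X v w =
    2 * (v 0 * w 0) * X 0 2 +
      X 0 0 * (v 0 * w 1 + w 0 * v 1 - 2 * (v 1 * w 1) - 2 * (v 3 * w 3) + v 1 * w 3 + w 1 * v 3) +
      X 0 1 * (2 * (v 0 * w 3) + 2 * (w 0 * v 3) + 2 * (v 3 * w 3) + v 0 * w 1 + w 0 * v 1 -
        2 * (v 1 * w 1)) := by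
  unfold Pf
  have h0 : (![0, 1] : Fin (1 + 1) → Fin (2 + 1)) 1 = 1 := rfl
  rw [h0, Mf1, Mf1]
  simp only [upd11, upd10]
  ring

theorem Ah_eq (u : T3 → S) : Ah (zc S) (ct u) = 2 + 2 * (ga u * ga u) := by
  unfold Ah
  rw [Pf0, Y1_eq, ct10, ct11, ct12]
  simp

theorem Bh_eq (u : T3 → S) : Bh (zc S) (ct u) = ga u + 2 * (al u * ga u) := by
  unfold Bh
  rw [Pf0, Y0_eq, Y1_eq, ct10, ct11, ct12]
  simp

theorem Ch_eq (u : T3 → S) : Ch (zc S) (ct u) =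
    2 * al u + 2 * (al u * al u) - 2 * (be u * be u) + 2 * u (0, 0) + 4 * u (0, 1) := by
  unfold Ch
  rw [Pf0, Y0_eq, ct10, ct11, ct12]
  simp
  ring

theorem Fh_eq (u : T3 → S) (z : S) : Fh (zc S) (ct u) z =
    (2 + 2 * (ga u * ga u)) * z * z + 2 * (ga u + 2 * (al u * ga u)) * z +
      (2 * al u + 2 * (al u * al u) - 2 * (be u * be u) + 2 * u (0, 0) + 4 * u (0, 1)) := by
  unfold Fh
  rw [Pf0, yh_eq, ct10, ct11, ct12]
  simp
  ring

theorem Nx_eq (X : Fin (1 + 1) → I 2 → S) (h : X 0 0 = 1) : Nx (zc S) 1 X = !![1, 2; 1, 1] := by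
  ext r b
  unfold Nx
  fin_cases r <;> fin_cases b <;>
    simp [rf10, rf11, h, Pi.single_apply, Fin.ext_iff]

theorem vh_eq (X : Fin (1 + 1) → I 2 → S) (h : X 0 0 = 1) : vh (zc S) 1 X = ![0, 0, -1] := by
  unfold vh
  rw [Nx_eq X h]
  funext i
  fin_cases i
  · simp [Fin.snoc, rf10, rf11, Pi.single_apply, Fin.ext_iff, Matrix.mulVec, dotProduct,
      Fin.sum_univ_two]
  · simp [Fin.snoc, rf10, rf11, Pi.single_apply, Fin.ext_iff, Matrix.mulVec, dotProduct,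
      Fin.sum_univ_two]
  · simp [Fin.snoc, Matrix.det_fin_two]
    ring

theorem Xz0 (u : T3 → S) (z : S) : Xz (zc S) (ct u) z 0 = ![1, z, al u + z * ga u, be u] := by
  unfold Xz
  rw [upd00, yh_eq]

theorem Xz1 (u : T3 → S) (z : S) : Xz (zc S) (ct u) z 1 = ct u 1 := by
  unfold Xz
  rw [upd01]

theorem vhX (u : T3 → S) (z : S) : vh (zc S) 1 (Xz (zc S) (ct u) z) = ![0, 0, -1] :=
  vh_eq _ (by rw [Xz0]; rfl)

theorem xhX (u : T3 → S) (z : S) : xh (zc S) 1 (Xz (zc S) (ct u) z) = ![0, 0, 0, -1] := by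
  unfold xh
  rw [vhX]
  rfl

theorem psh_eq (u : T3 → S) (z : S) : psh (zc S) 1 (ct u) z =
    -u (0, 0) + 2 * u (0, 2) - 2 * z - 2 * (u (0, 2) * z) := by
  unfold psh
  rw [Pf1, xhX, Xz0, ct10, ct11, ct13]
  simp
  ring

theorem kah_eq (u : T3 → S) (z : S) : kah (zc S) 1 (ct u) z = -2 + 2 * z := by
  unfold kah
  rw [Pf1, xhX, Xz0]
  simp
  ring

end

end Pool.Agent.Helper21.H3
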