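import Mathlib
import Pool.Agent.Helper21.H3.Ex2b

/-!
# The example of type 2: derivatives, the system, the Jacobian
-/

set_option autoImplicit false

namespace Pool.Agent.Helper21.H3

open Pool.Agent.Helper64.HK Pool.Agent.Helper77.H3 Finset
open Pool.Agent.Helper28.HN (I aff)

section

variable {S : Type*} [CommRing S]

theorem map_zc {T : Type*} [CommRing T] (f : S →+* T)
    (e : Ix (![0, 1] : Fin (1 + 1) → Fin (2 + 1))) : f (zc S e) = zc T e := map_intCast f _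

theorem cC_zc : cC (zc S) = zc (Polynomial S) := funext fun e => map_zc Polynomial.C e

theorem lnP_eq (u v : T3 → S) (e : T3) :
    lnP u v e = Polynomial.C (u e) + Polynomial.X * Polynomial.C (v e) := rfl

/-- the function `al` of the coordinates -/
def alF (p r : S) : S := -p + p * p - p * r + r * r
/-- the function `be` of the coordinates -/
def beF (p q : S) : S := -p - q
/-- the function `ga` of the coordinates -/
def gaF (p r : S) : S := -p + p * p - 2 * r - r * r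
/-- `Ah` -/
def aF (p r : S) : S := 2 + 2 * (gaF p r * gaF p r)
/-- `Bh` -/
def bF (p r : S) : S := gaF p r + 2 * (alF p r * gaF p r)
/-- `Ch` -/
def cF (p q r : S) : S :=
  2 * alF p r + 2 * (alF p r * alF p r) - 2 * (beF p q * beF p q) + 2 * p + 4 * q
/-- derivative of `al` -/
def dal (p r vp vr : S) : S := -vp + 2 * p * vp - (vp * r + p * vr) + 2 * r * vr
/-- derivative of `ga` -/
def dga (p r vp vr : S) : S := -vp + 2 * p * vp - 2 * vr - 2 * r * vr
/-- derivative of `Ah` -/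
def daF (p r vp vr : S) : S := 4 * (gaF p r * dga p r vp vr)
/-- derivative of `Bh` -/
def dbF (p r vp vr : S) : S :=
  dga p r vp vr + 2 * (dal p r vp vr * gaF p r + alF p r * dga p r vp vr)
/-- derivative of `Ch` -/
def dcF (p q r vp vq vr : S) : S :=
  2 * dal p r vp vr + 4 * (alF p r * dal p r vp vr) + 4 * (beF p q * (vp + vq)) + 2 * vp + 4 * vq

theorem Ah_F (u : T3 → S) : Ah (zc S) (ct u) = aF (u (0, 0)) (u (0, 2)) := Ah_eq u

theorem Bh_F (u : T3 → S) : Bh (zc S) (ct u) = bF (u (0, 0)) (u (0, 2)) := Bh_eq u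

theorem Ch_F (u : T3 → S) : Ch (zc S) (ct u) = cF (u (0, 0)) (u (0, 1)) (u (0, 2)) := Ch_eq u

theorem Fh_F (u : T3 → S) (z : S) : Fh (zc S) (ct u) z =
    aF (u (0, 0)) (u (0, 2)) * z * z + 2 * bF (u (0, 0)) (u (0, 2)) * z +
      cF (u (0, 0)) (u (0, 1)) (u (0, 2)) := Fh_eq u z

theorem der_al (u v : T3 → S) : (alF (lnP u v (0, 0)) (lnP u v (0, 2))).derivative.eval 0 =
    dal (u (0, 0)) (u (0, 2)) (v (0, 0)) (v (0, 2)) := by
  simp only [alF, lnP_eq, dal]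
  simp
  ring

theorem der_ga (u v : T3 → S) : (gaF (lnP u v (0, 0)) (lnP u v (0, 2))).derivative.eval 0 =
    dga (u (0, 0)) (u (0, 2)) (v (0, 0)) (v (0, 2)) := by
  simp only [gaF, lnP_eq, dga]
  simp
  ring

theorem der_be (u v : T3 → S) : (beF (lnP u v (0, 0)) (lnP u v (0, 1))).derivative.eval 0 =
    -(v (0, 0) + v (0, 1)) := by
  simp only [beF, lnP_eq]
  simp
  ring

theorem ev_al (u v : T3 → S) : (alF (lnP u v (0, 0)) (lnP u v (0, 2))).eval 0 =
    alF (u (0, 0)) (u (0, 2)) := by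
  simp [alF, lnP_eq]

theorem ev_ga (u v : T3 → S) : (gaF (lnP u v (0, 0)) (lnP u v (0, 2))).eval 0 =
    gaF (u (0, 0)) (u (0, 2)) := by
  simp [gaF, lnP_eq]

theorem ev_be (u v : T3 → S) : (beF (lnP u v (0, 0)) (lnP u v (0, 1))).eval 0 =
    beF (u (0, 0)) (u (0, 1)) := by
  simp [beF, lnP_eq]

theorem der_a (u v : T3 → S) : (aF (lnP u v (0, 0)) (lnP u v (0, 2))).derivative.eval 0 =
    daF (u (0, 0)) (u (0, 2)) (v (0, 0)) (v (0, 2)) := by
  unfold aF daF
  simp only [Polynomial.derivative_add, Polynomial.derivative_mul, Polynomial.eval_add,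
    Polynomial.eval_mul, der_ga, ev_ga, Polynomial.derivative_ofNat, Polynomial.eval_ofNat,
    Polynomial.eval_zero]
  ring

theorem der_b (u v : T3 → S) : (bF (lnP u v (0, 0)) (lnP u v (0, 2))).derivative.eval 0 =
    dbF (u (0, 0)) (u (0, 2)) (v (0, 0)) (v (0, 2)) := by
  unfold bF dbF
  simp only [Polynomial.derivative_add, Polynomial.derivative_mul, Polynomial.eval_add,
    Polynomial.eval_mul, der_ga, ev_ga, der_al, ev_al, Polynomial.derivative_ofNat,
    Polynomial.eval_ofNat, Polynomial.eval_zero]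
  ring

theorem der_c (u v : T3 → S) :
    (cF (lnP u v (0, 0)) (lnP u v (0, 1)) (lnP u v (0, 2))).derivative.eval 0 =
    dcF (u (0, 0)) (u (0, 1)) (u (0, 2)) (v (0, 0)) (v (0, 1)) (v (0, 2)) := by
  have h0 : (lnP u v (0, 0)).derivative.eval 0 = v (0, 0) := by simp [lnP_eq]
  have h1 : (lnP u v (0, 1)).derivative.eval 0 = v (0, 1) := by simp [lnP_eq]
  unfold cF dcF
  simp only [Polynomial.derivative_add, Polynomial.derivative_sub, Polynomial.derivative_mul,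
    Polynomial.eval_add, Polynomial.eval_sub,
    Polynomial.eval_mul, der_be, ev_be, der_al, ev_al, Polynomial.derivative_ofNat,
    Polynomial.eval_ofNat, Polynomial.eval_zero, h0, h1]
  ring

theorem dBz_eq (u : T3 → S) (z : S) (v : T3 → S) : dBz (zc S) u z v =
    daF (u (0, 0)) (u (0, 2)) (v (0, 0)) (v (0, 2)) * z +
      dbF (u (0, 0)) (u (0, 2)) (v (0, 0)) (v (0, 2)) := by
  unfold dBz
  rw [cC_zc, Ah_F, Bh_F]
  simp only [Polynomial.derivative_add, Polynomial.derivative_mul, Polynomial.eval_add,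
    Polynomial.eval_mul, der_a, der_b, Polynomial.derivative_C, Polynomial.eval_C,
    Polynomial.eval_zero]
  ring

theorem dFh_eq (u : T3 → S) (z : S) (v : T3 → S) : dFh (zc S) u z v =
    daF (u (0, 0)) (u (0, 2)) (v (0, 0)) (v (0, 2)) * z * z +
      2 * dbF (u (0, 0)) (u (0, 2)) (v (0, 0)) (v (0, 2)) * z +
      dcF (u (0, 0)) (u (0, 1)) (u (0, 2)) (v (0, 0)) (v (0, 1)) (v (0, 2)) := by
  unfold dFh
  rw [cC_zc, Fh_F]
  simp only [Polynomial.derivative_add, Polynomial.derivative_mul, Polynomial.eval_add,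
    Polynomial.eval_mul, der_a, der_b, der_c, Polynomial.derivative_C, Polynomial.eval_C,
    Polynomial.eval_zero, Polynomial.derivative_ofNat, Polynomial.eval_ofNat]
  ring

theorem dps_eq (u : T3 → S) (z : S) (v : T3 → S) : dps (zc S) u z v =
    -v (0, 0) + 2 * v (0, 2) - 2 * (v (0, 2) * z) := by
  unfold dps
  rw [cC_zc, psh_eq]
  simp only [lnP_eq]
  simp

theorem psP_eq (u : T3 → S) : psP (zc S) 1 (ct u) =
    -Polynomial.C (u (0, 0)) + 2 * Polynomial.C (u (0, 2)) - 2 * Polynomial.X -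
      2 * (Polynomial.C (u (0, 2)) * Polynomial.X) := by
  unfold psP
  have h1 : (fun e => Polynomial.C (zc S e)) = zc (Polynomial S) :=
    funext fun e => map_zc Polynomial.C e
  have h2 : (fun i l => Polynomial.C (ct (k := 1) (m := 2) u i l)) =
      ct (fun e => Polynomial.C (u e)) := by
    funext i l
    fin_cases i
    · exact map_zero _
    · fin_cases l
      · exact map_one _
      · rfl
      · rfl
      · rfl
  rw [h1, h2, psh_eq]

theorem zps_eq (u : T3 → S) (z : S) : zps (zc S) u z = -2 - 2 * u (0, 2) := by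
  unfold zps
  rw [psP_eq]
  simp

theorem xi_eq (u : T3 → S) (z : S) : xi (zc S) u z = fun e => ![0, 0, -1] e.2 := by
  unfold xi
  rw [vhX]

/-- The explicit system. -/
def eq2 (x : Fin 8 → S) : Fin 8 → S :=
  ![aF (x 0) (x 2) * x 3 * x 3 + 2 * bF (x 0) (x 2) * x 3 + cF (x 0) (x 1) (x 2),
    aF (x 0) (x 2) * x 3 + bF (x 0) (x 2),
    -x 0 + 2 * x 2 - 2 * x 3 - 2 * (x 2 * x 3),
    (daF (x 0) (x 2) 0 (-1) * x 3 + dbF (x 0) (x 2) 0 (-1)) * (-2 - 2 * x 2) -
      (-2 + 2 * x 3) * aF (x 0) (x 2),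
    daF (x 0) (x 2) (x 4 - x 0) (x 6 - x 2) * x 3 * x 3 +
      2 * dbF (x 0) (x 2) (x 4 - x 0) (x 6 - x 2) * x 3 +
      dcF (x 0) (x 1) (x 2) (x 4 - x 0) (x 5 - x 1) (x 6 - x 2),
    aF (x 4) (x 6) * x 7 * x 7 + 2 * bF (x 4) (x 6) * x 7 + cF (x 4) (x 5) (x 6),
    aF (x 4) (x 6) * x 7 + bF (x 4) (x 6),
    daF (x 4) (x 6) (x 4 - x 0) (x 6 - x 2) * x 7 * x 7 +
      2 * dbF (x 4) (x 6) (x 4 - x 0) (x 6 - x 2) * x 7 +
      dcF (x 4) (x 5) (x 6) (x 4 - x 0) (x 5 - x 1) (x 6 - x 2)]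

theorem Eqn3_eq (x : Fin 8 → S) : Eqn3 (zc S) x = eq2 x := by
  unfold Eqn3 eq2
  rw [Fh_F, Ah_F, Bh_F, psh_eq, xi_eq, dBz_eq, zps_eq, kah_eq, dFh_eq, Fh_F, Ah_F, Bh_F,
    dFh_eq]
  funext i
  fin_cases i <;> simp [p0, p1, rr]

theorem Pp3_eq (x : Fin 8 → S) : Pp3 (zc S) x =
    aF (x 0) (x 2) * aF (x 4) (x 6) * (-2 + 2 * x 3) *
      ((-2 + 2 * x 3) * (daF (x 0) (x 2) (x 4 - x 0) (x 6 - x 2) * x 3 +
        dbF (x 0) (x 2) (x 4 - x 0) (x 6 - x 2)) -
      (daF (x 0) (x 2) 0 (-1) * x 3 + dbF (x 0) (x 2) 0 (-1)) *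
        (-(x 4 - x 0) + 2 * (x 6 - x 2) - 2 * ((x 6 - x 2) * x 3))) := by
  unfold Pp3
  rw [Mx_eq _ (ct10 _), Mx_eq _ (ct10 _), Matrix.det_one, Ah_F, Ah_F, kah_eq, dBz_eq, xi_eq,
    dBz_eq, dps_eq]
  simp [p0, p1, rr]

end

/-- The point. -/
def xv : Fin 8 → ℚ := ![0, 0, 0, 0, 1, 0, 0, 0]

/-- The Jacobian. -/
def JM : Matrix (Fin 8) (Fin 8) ℚ :=
  !![0,4,0,0,0,0,0,0;
     -1,0,-2,2,0,0,0,0;
     -1,0,2,-2,0,0,0,0;
     8,0,-8,-4,0,0,0,0;
     4,-8,-2,-2,0,4,0,0;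
     0,0,0,0,0,0,-2,0;
     0,0,0,0,1,0,-2,2;
     0,0,2,0,4,-4,-8,2]

end Pool.Agent.Helper21.H3
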