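import Mathlib
import Pool.Agent.Helper21.H3.Ex2c

/-!
# The example of type 2
-/

set_option autoImplicit false

namespace Pool.Agent.Helper21.H3

open Pool.Agent.Helper64.HK Pool.Agent.Helper77.H3 Finset
open Pool.Agent.Helper28.HN (I aff)

/-- The inverse of the Jacobian. -/
def JK : Matrix (Fin 8) (Fin 8) ℚ :=
  !![0, -1/2, -1/2, 0, 0, 0, 0, 0;
     1/4, 0, 0, 0, 0, 0, 0, 0;
     0, -5/12, -1/4, -1/12, 0, 0, 0, 0;
     0, -1/6, -1/2, -1/12, 0, 0, 0, 0;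
     2/3, 5/9, 1/3, -1/18, 1/3, -1, -1/3, 1/3;
     1/2, 5/24, 1/8, -1/12, 1/4, 0, 0, 0;
     0, 0, 0, 0, 0, -1/2, 0, 0;
     -1/3, -5/18, -1/6, 1/36, -1/6, 0, 2/3, -1/6]

theorem JM_det : JM.det ≠ 0 := by
  apply Matrix.det_ne_zero_of_right_inverse (B := JK)
  ext i j
  fin_cases i <;> fin_cases j <;>
    (simp [JM, JK, Matrix.mul_apply, Fin.sum_univ_succ]; try norm_num)

theorem pd2 (j : Fin 8) : MvPolynomial.pderiv j (2 : MvPolynomial (Fin 8) ℚ) = 0 := by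
  exact_mod_cast (MvPolynomial.pderiv (R := ℚ) j).map_natCast 2

theorem pd4 (j : Fin 8) : MvPolynomial.pderiv j (4 : MvPolynomial (Fin 8) ℚ) = 0 := by
  exact_mod_cast (MvPolynomial.pderiv (R := ℚ) j).map_natCast 4

theorem jac_eq : (Matrix.of fun i j : Fin 8 => MvPolynomial.eval xv (MvPolynomial.pderiv j
    (Eqn3 (fun e => MvPolynomial.C (zc ℚ e)) MvPolynomial.X i :
      MvPolynomial (Fin 8) ℚ))) = JM := by
  have h1 : (fun e => MvPolynomial.C (σ := Fin 8) (zc ℚ e)) = zc (MvPolynomial (Fin 8) ℚ) :=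
    funext fun e => map_zc MvPolynomial.C e
  rw [h1, Eqn3_eq]
  ext i j
  rw [Matrix.of_apply]
  fin_cases i <;> fin_cases j <;>
    (simp [eq2, aF, bF, cF, daF, dbF, dcF, alF, beF, gaF, dal, dga, JM, xv,
      MvPolynomial.pderiv_X, pd2, pd4]; try norm_num)

open Polynomial in
theorem bd_eq : Bh (cC (zc ℚ)) (ct (lnP (p0 xv) (rr xv))) ^ 2 -
    Ah (cC (zc ℚ)) (ct (lnP (p0 xv) (rr xv))) * Ch (cC (zc ℚ)) (ct (lnP (p0 xv) (rr xv))) =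
      C (-3) * X ^ 2 + C 2 * X ^ 3 + C 9 * X ^ 4 + C (-12) * X ^ 5 + C 4 * X ^ 6 := by
  rw [cC_zc, Bh_F, Ah_F, Ch_F]
  have h1 : lnP (p0 xv) (rr xv) (0, 0) = X := by
    simp [lnP_eq, p0, rr, p1, xv]
  have h2 : lnP (p0 xv) (rr xv) (0, 1) = 0 := by
    simp [lnP_eq, p0, rr, p1, xv]
  have h3 : lnP (p0 xv) (rr xv) (0, 2) = 0 := by
    simp [lnP_eq, p0, rr, p1, xv]
  rw [h1, h2, h3]
  simp only [aF, bF, cF, alF, beF, gaF, map_ofNat, map_neg]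
  ring

theorem ex2 : ∃ c0 : Ix (![0, 1] : Fin (1 + 1) → Fin (2 + 1)) → ℚ, ∃ x0 : Fin 8 → ℚ,
    (∀ i, Eqn3 c0 x0 i = 0) ∧ Pp3 c0 x0 ≠ 0 ∧
    (Mx (cC c0) (ct (lnP (p0 x0) (rr x0)))).det = 1 ∧
    G3 (Bh (cC c0) (ct (lnP (p0 x0) (rr x0))) ^ 2 - Ah (cC c0) (ct (lnP (p0 x0) (rr x0))) *
      Ch (cC c0) (ct (lnP (p0 x0) (rr x0)))) ≠ 0 ∧
    (Matrix.of fun i j : Fin 8 => MvPolynomial.eval x0 (MvPolynomial.pderiv j
      (Eqn3 (fun e => MvPolynomial.C (c0 e)) MvPolynomial.X i : MvPolynomial (Fin 8) ℚ))).det ≠ 0 := by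
  refine ⟨zc ℚ, xv, ?_, ?_, ?_, ?_, ?_⟩
  · intro i
    rw [Eqn3_eq]
    fin_cases i <;>
      simp [eq2, aF, bF, cF, daF, dbF, dcF, alF, beF, gaF, dal, dga, xv] <;> norm_num
  · rw [Pp3_eq]
    simp [aF, bF, cF, daF, dbF, dcF, alF, beF, gaF, dal, dga, xv]
    try norm_num
  · rw [cC_zc, Mx_eq _ (ct10 _), Matrix.det_one]
  · rw [bd_eq]
    simp [G3, ec, Polynomial.coeff_X_pow, Polynomial.coeff_C_mul]
    try norm_num
  · rw [jac_eq]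
    exact JM_det

end Pool.Agent.Helper21.H3
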